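import Pool.Agent.Lib.MP_4c66eb_an.Struct

/-!
# Zeros of the Pochhammer Toeplitz determinant polynomials
-/

set_option autoImplicit false
open Polynomial

namespace Pool.Agent.Results.MP_4c66eb_an.ZeroStructure

/-- The polynomial `P_n` of the question. -/
noncomputable def P (n : ℕ) (f : ℕ → ℝ) : ℝ[X] :=
  ∑ k ∈ Finset.range (n + 1), C (f k * f (n - k) * (n.choose k : ℝ)) *
    (ascPochhammer ℝ k * ascPochhammer ℝ (n - k) -
      (ascPochhammer ℝ k).comp (X + 1) * (ascPochhammer ℝ (n - k)).comp (X - 1))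

theorem map_P (n : ℕ) (f : ℕ → ℝ) :
    (P n f).map (algebraMap ℝ ℂ) = Pool.Agent.Lib.MP_4c66eb_an.PP n f := by
  unfold P Pool.Agent.Lib.MP_4c66eb_an.PP
  rw [Polynomial.map_sum]
  apply Finset.sum_congr rfl
  intro k _
  simp only [Polynomial.map_mul, Polynomial.map_sub, Polynomial.map_comp, Polynomial.map_C,
    ascPochhammer_map, Polynomial.map_add, Polynomial.map_X, Polynomial.map_one,
    Complex.coe_algebraMap]

/-- **Answer to the question, with the structure of the zeros.** If all complex zeros of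
`∑ f_k z^k` (degree `n ≥ 2`, real coefficients) are real and negative, then
`P_n = c ∏_{1 ≤ j ≤ ⌊(n-1)/2⌋} (z + j) ∏_{i < ⌊n/2⌋ - 1} (z - x_i)` with `c ≠ 0`,
`-(n-1)/2 ≤ x_i < 0` and `x_{i+1} ≤ x_i - 1`. So `P_n` has degree `n - 2` and all its complex zeros
are real numbers in `[-(n-1)/2, 0)`. -/
theorem result (n : ℕ) (hn : 2 ≤ n) (f : ℕ → ℝ) (hfn : f n ≠ 0)
    (hroots : ∀ z : ℂ, ∑ k ∈ Finset.range (n + 1), (f k : ℂ) * z ^ k = 0 →
      z.im = 0 ∧ z.re < 0) :
    (∃ (c : ℝ) (x : ℕ → ℝ), c ≠ 0 ∧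
      (∀ i < n / 2 - 1, -(((n : ℝ) - 1) / 2) ≤ x i ∧ x i < 0) ∧
      (∀ i, i + 1 < n / 2 - 1 → x (i + 1) ≤ x i - 1) ∧
      P n f = C c * (∏ j ∈ Finset.range ((n - 1) / 2), (X + C ((j : ℝ) + 1))) *
        ∏ i ∈ Finset.range (n / 2 - 1), (X - C (x i))) ∧
    P n f ≠ 0 ∧ (P n f).natDegree = n - 2 ∧
    ∀ z : ℂ, aeval z (P n f) = 0 → z.im = 0 ∧ -(((n : ℝ) - 1) / 2) ≤ z.re ∧ z.re < 0 := by
  obtain ⟨c, x, hc, hx, hs, hP⟩ := Pool.Agent.Lib.MP_4c66eb_an.structC n hn f hfn hroots
  set R : ℝ[X] := (∏ j ∈ Finset.range ((n - 1) / 2), (X + C ((j : ℝ) + 1))) *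
        ∏ i ∈ Finset.range (n / 2 - 1), (X - C (x i)) with hR
  have hRm : R.Monic := by
    refine Monic.mul (monic_prod_of_monic _ _ fun j _ => monic_X_add_C _)
      (monic_prod_of_monic _ _ fun j _ => monic_X_sub_C _)
  have hPR : (P n f).map (algebraMap ℝ ℂ) = C c * R.map (algebraMap ℝ ℂ) := by
    rw [map_P, hP, hR, Polynomial.map_mul, Polynomial.map_prod, Polynomial.map_prod, mul_assoc]
    simp only [Polynomial.map_add, Polynomial.map_sub, Polynomial.map_X, Polynomial.map_C,
      Complex.coe_algebraMap, Complex.ofReal_add, Complex.ofReal_natCast, Complex.ofReal_one]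
  have hcr : c = (((P n f).coeff R.natDegree : ℝ) : ℂ) := by
    have h1 := congrArg (fun p : ℂ[X] => p.coeff R.natDegree) hPR
    simp only [coeff_map, coeff_C_mul, hRm.coeff_natDegree, map_one, mul_one,
      Complex.coe_algebraMap] at h1
    exact h1.symm
  have hreal : P n f = C ((P n f).coeff R.natDegree) * R := by
    apply Polynomial.map_injective (algebraMap ℝ ℂ) (algebraMap ℝ ℂ).injective
    have h2 : (C ((P n f).coeff R.natDegree) * R).map (algebraMap ℝ ℂ)
        = C c * R.map (algebraMap ℝ ℂ) := by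
      generalize (P n f).coeff R.natDegree = r at hcr
      generalize R = R'
      rw [Polynomial.map_mul, Polynomial.map_C, Complex.coe_algebraMap, ← hcr]
    rw [h2]
    exact hPR
  set r : ℝ := (P n f).coeff R.natDegree with hr
  have hr0 : r ≠ 0 := by
    intro h
    rw [h] at hcr
    exact hc (by rw [hcr]; simp)
  have hdegR : R.natDegree = n - 2 := by
    have h1 : (∏ j ∈ Finset.range ((n - 1) / 2), (X + C ((j : ℝ) + 1))).natDegree
        = (n - 1) / 2 := by
      rw [natDegree_prod_of_monic _ _ fun j _ => monic_X_add_C _]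
      simp only [natDegree_X_add_C, Finset.sum_const, Finset.card_range, smul_eq_mul, mul_one]
    have h2 : (∏ i ∈ Finset.range (n / 2 - 1), (X - C (x i))).natDegree = n / 2 - 1 := by
      rw [natDegree_prod_of_monic _ _ fun j _ => monic_X_sub_C _]
      simp
    rw [hR, Monic.natDegree_mul (monic_prod_of_monic _ _ fun j _ => monic_X_add_C _)
      (monic_prod_of_monic _ _ fun j _ => monic_X_sub_C _), h1, h2]
    omega
  refine ⟨⟨r, x, hr0, fun i hi => ⟨(hx i hi).2, (hx i hi).1⟩, ?_, ?_⟩, ?_, ?_, ?_⟩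
  · intro i hi
    have := hs i hi
    linarith
  · rw [mul_assoc]
    exact hreal
  · rw [hreal]
    exact mul_ne_zero (C_ne_zero.mpr hr0) hRm.ne_zero
  · rw [hreal, natDegree_C_mul hr0, hdegR]
  · intro z hz
    rw [hreal, map_mul, aeval_C, hR, map_mul, map_prod, map_prod] at hz
    rcases mul_eq_zero.mp hz with h | h
    · exfalso
      rw [Complex.coe_algebraMap] at h
      exact hr0 (by exact_mod_cast h)
    · rcases mul_eq_zero.mp h with h | h
      · rw [Finset.prod_eq_zero_iff] at h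
        obtain ⟨j, hj, h⟩ := h
        rw [Finset.mem_range] at hj
        have hz1 : z = ((-((j : ℝ) + 1) : ℝ) : ℂ) := by
          rw [map_add, aeval_X, aeval_C, Complex.coe_algebraMap] at h
          push_cast at h ⊢
          linear_combination h
        rw [hz1]
        refine ⟨Complex.ofReal_im _, ?_, ?_⟩
        · rw [Complex.ofReal_re]
          have h2 : 2 * (j + 1) + 1 ≤ n := by omega
          have h3 : (2 : ℝ) * ((j : ℝ) + 1) + 1 ≤ n := by exact_mod_cast h2
          linarith
        · rw [Complex.ofReal_re]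
          have : (0 : ℝ) ≤ j := Nat.cast_nonneg j
          linarith
      · rw [Finset.prod_eq_zero_iff] at h
        obtain ⟨i, hi, h⟩ := h
        rw [Finset.mem_range] at hi
        have hz1 : z = ((x i : ℝ) : ℂ) := by
          rw [map_sub, aeval_X, aeval_C, Complex.coe_algebraMap] at h
          linear_combination h
        rw [hz1]
        exact ⟨Complex.ofReal_im _, by rw [Complex.ofReal_re]; exact (hx i hi).2,
          by rw [Complex.ofReal_re]; exact (hx i hi).1⟩

end Pool.Agent.Results.MP_4c66eb_an.ZeroStructure
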